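import Pool.Agent.Helper34.PU.Goals

/-!
MP_8060f4_co, packet FRAME : averaging over the permutations of `Fin T`.
-/

set_option autoImplicit false

open Finset Function
open scoped Classical

namespace Pool.Agent.Helper96.PU

open Pool.Agent.Helper34.PU

/-- two injections of a finite type into `Fin T` differ by a permutation -/
theorem exists_perm {ι : Type} [Fintype ι] {T : ℕ} (a b : ι → Fin T) (ha : Injective a)
    (hb : Injective b) : ∃ π : Equiv.Perm (Fin T), ∀ j, π (a j) = b j := by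
  let e : {x // x ∈ Set.range a} ≃ {x // x ∈ Set.range b} :=
    (Equiv.ofInjective a ha).symm.trans (Equiv.ofInjective b hb)
  refine ⟨e.extendSubtype, fun j => ?_⟩
  have h1 := e.extendSubtype_apply_of_mem (a j) ⟨j, rfl⟩
  rw [h1]
  have h2 : (Equiv.ofInjective a ha).symm ⟨a j, ⟨j, rfl⟩⟩ = j := by
    rw [Equiv.symm_apply_eq]
    rfl
  change ((Equiv.ofInjective b hb) ((Equiv.ofInjective a ha).symm ⟨a j, ⟨j, rfl⟩⟩) : Fin T) = b j
  rw [h2]
  rfl

theorem frame : FrameStmt := by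
  intro k M T hM hT 𝒯 _ part Df ϱ hDf hΦ
  -- the injection
  have hcard : Fintype.card (Fin 3 × Fin M × Fin k) ≤ Fintype.card (Fin T) := by
    rw [Fintype.card_prod, Fintype.card_prod, Fintype.card_fin, Fintype.card_fin, Fintype.card_fin,
      Fintype.card_fin]
    calc 3 * (M * k) = 3 * M * k := by ring
      _ ≤ T := hT
  obtain ⟨ι0⟩ := Function.Embedding.nonempty_of_card_le hcard
  let idx : 𝒯 → Fin k → Fin M → Fin M → Fin M := fun τ j l l' =>
    if part τ j = 0 then ⟨0, hM⟩ else if part τ j = 1 then l else l'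
  let e : 𝒯 → Fin M → Fin M → Fin k → Fin T := fun τ l l' j => ι0 (part τ j, idx τ j l l', j)
  have he : ∀ τ l l', Injective (e τ l l') := by
    intro τ l l' j j' h
    have h1 := ι0.injective h
    exact (Prod.mk.inj (Prod.mk.inj h1).2).2
  let e0 : Fin k → Fin T := fun j => ι0 (0, ⟨0, hM⟩, j)
  have he0 : Injective e0 := by
    intro j j' h
    have h1 := ι0.injective h
    exact (Prod.mk.inj (Prod.mk.inj h1).2).2
  -- reindexing
  have hre : ∀ τ l l', ∑ σ : Equiv.Perm (Fin T), Df τ (fun j => σ (e τ l l' j)) =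
      ∑ σ : Equiv.Perm (Fin T), Df τ (fun j => σ (e0 j)) := by
    intro τ l l'
    obtain ⟨π, hπ⟩ := exists_perm e0 (e τ l l') he0 (he τ l l')
    rw [← Equiv.sum_comp (Equiv.mulRight π) (fun σ : Equiv.Perm (Fin T) => Df τ (fun j => σ (e0 j)))]
    apply Finset.sum_congr rfl
    intro σ _
    have h1 : (fun j => σ (e τ l l' j)) = fun j => ((Equiv.mulRight π) σ) (e0 j) := by
      funext j
      rw [Equiv.coe_mulRight, Equiv.Perm.mul_apply, hπ]
    rw [h1]
  -- averaging the hypothesis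
  have hτ : ∀ τ, ∑ σ : Equiv.Perm (Fin T), Df τ (fun j => σ (e0 j)) ≤
      (Fintype.card (Equiv.Perm (Fin T)) : ℝ) * ϱ τ := by
    intro τ
    have h1 : ∑ σ : Equiv.Perm (Fin T), ∑ l : Fin M, ∑ l' : Fin M,
        Df τ (fun j => σ (e τ l l' j)) ≤ ∑ σ : Equiv.Perm (Fin T), (M : ℝ) ^ 2 * ϱ τ := by
      apply Finset.sum_le_sum
      intro σ _
      have h2 := hΦ τ (fun i l j => σ (ι0 (i, l, j))) (by
        intro i l j i' l' j' h
        have h3 := ι0.injective (σ.injective h)
        exact ⟨(Prod.mk.inj h3).1, (Prod.mk.inj (Prod.mk.inj h3).2).1,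
          (Prod.mk.inj (Prod.mk.inj h3).2).2⟩)
      exact h2
    have h2 : ∑ σ : Equiv.Perm (Fin T), ∑ l : Fin M, ∑ l' : Fin M,
        Df τ (fun j => σ (e τ l l' j)) =
        (M : ℝ) ^ 2 * ∑ σ : Equiv.Perm (Fin T), Df τ (fun j => σ (e0 j)) := by
      rw [Finset.sum_comm]
      have h3 : ∀ l : Fin M, ∑ σ : Equiv.Perm (Fin T), ∑ l' : Fin M,
          Df τ (fun j => σ (e τ l l' j)) =
          (M : ℝ) * ∑ σ : Equiv.Perm (Fin T), Df τ (fun j => σ (e0 j)) := by
        intro l
        rw [Finset.sum_comm, Finset.sum_congr rfl (fun l' _ => hre τ l l'), Finset.sum_const,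
          Finset.card_univ, Fintype.card_fin, nsmul_eq_mul]
      rw [Finset.sum_congr rfl (fun l _ => h3 l), Finset.sum_const,
          Finset.card_univ, Fintype.card_fin, nsmul_eq_mul]
      ring
    rw [h2, Finset.sum_const, Finset.card_univ, nsmul_eq_mul] at h1
    have hM2 : (0 : ℝ) < (M : ℝ) ^ 2 := by
      have : (0 : ℝ) < M := by exact_mod_cast hM
      positivity
    have h4 : (M : ℝ) ^ 2 * ∑ σ : Equiv.Perm (Fin T), Df τ (fun j => σ (e0 j)) ≤
        (M : ℝ) ^ 2 * ((Fintype.card (Equiv.Perm (Fin T)) : ℝ) * ϱ τ) := by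
      calc _ ≤ _ := h1
        _ = _ := by ring
    exact le_of_mul_le_mul_left h4 hM2
  -- choose the permutation
  have hsum : ∑ σ : Equiv.Perm (Fin T), ∑ τ, Df τ (fun j => σ (e0 j)) ≤
      ∑ σ : Equiv.Perm (Fin T), ∑ τ, ϱ τ := by
    rw [Finset.sum_comm, Finset.sum_const, Finset.card_univ, nsmul_eq_mul, Finset.mul_sum]
    exact Finset.sum_le_sum (fun τ _ => hτ τ)
  obtain ⟨σ, -, hσ⟩ := Finset.exists_le_of_sum_le
    (⟨1, Finset.mem_univ 1⟩ : (Finset.univ : Finset (Equiv.Perm (Fin T))).Nonempty) hsum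
  refine ⟨fun j => σ (e0 j), ?_, hσ⟩
  intro j j' h
  exact he0 (σ.injective h)

end Pool.Agent.Helper96.PU
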